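import Pool.Agent.H77.BD.Targets

/-!
# Board bct_modules, row CDT: transport along an isomorphism
-/

set_option autoImplicit false

namespace Pool.Agent.H57.BCT

open Set Matrix Pool.Agent.H77.BC Pool.Agent.H77.BD

theorem pf_CDT : T_CDT := by
  intro l C F Γ Δ _ _ _ e x τ hx
  have hUg : ∀ p : Root C → Prop, Ug (fun β t => e (x β t)) p = (Ug x p).map e.toMonoidHom := by
    intro p
    unfold Ug
    rw [MonoidHom.map_closure]
    congr 1
    ext g
    constructor
    · rintro ⟨β, t, hp, rfl⟩
      exact ⟨x β t, ⟨β, t, hp, rfl⟩, rfl⟩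
    · rintro ⟨g', ⟨β, t, hp, rfl⟩, rfl⟩
      exact ⟨β, t, hp, rfl⟩
  refine ⟨?_, ?_, ?_, ?_, ?_, ?_, ?_, ?_, ?_⟩
  · intro β s t
    rw [hx.add, map_mul]
  · intro β s t h
    exact hx.inj β s t (e.injective h)
  · intro β γ δ h s t
    rw [← map_mul, hx.com β γ δ h s t, map_mul, map_mul]
  · intro β γ h s t
    rw [← map_mul, hx.cmm β γ h s t, map_mul]
  · have h1 : {g : Δ | ∃ (β : Root C) (t : F), g = e (x β t)} =
        e.toMonoidHom '' {g | ∃ (β : Root C) (t : F), g = x β t} := by
      ext g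
      constructor
      · rintro ⟨β, t, rfl⟩
        exact ⟨x β t, ⟨β, t, rfl⟩, rfl⟩
      · rintro ⟨g', ⟨β, t, rfl⟩, rfl⟩
        exact ⟨β, t, rfl⟩
    rw [h1, ← MonoidHom.map_closure, hx.gen]
    rw [Subgroup.map_top_of_surjective]
    exact e.surjective
  · intro α g hg
    obtain ⟨g', rfl⟩ := e.surjective g
    obtain ⟨t, ht⟩ := hx.cen α g' (by
      intro γ hγ t
      have := hg γ hγ t
      rw [← map_mul, ← map_mul] at this
      exact e.injective this)
    exact ⟨t, by rw [ht]⟩
  · intro c β t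
    have := congrArg e (hx.tor c β t)
    rw [map_mul, map_mul] at this
    exact this
  · intro i α α' h1 h2 s t c hc
    have := congrArg e (hx.slt i α α' h1 h2 s t c hc)
    rw [map_mul, map_mul, map_mul] at this
    exact this
  · intro v hv c u hu h
    rw [hUg] at hv hu
    obtain ⟨v', hv', rfl⟩ := hv
    obtain ⟨u', hu', rfl⟩ := hu
    have h1 : v' * τ c * u' = 1 := by
      apply e.injective
      rw [map_mul, map_mul, map_one]
      exact h
    obtain ⟨h2, h3, h4⟩ := hx.tri v' hv' c u' hu' h1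
    refine ⟨?_, ?_, ?_⟩
    · rw [h2]
      exact map_one _
    · change e (τ c) = 1
      rw [h3, map_one]
    · rw [h4]
      exact map_one _

end Pool.Agent.H57.BCT
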