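import Pool.Agent.H77.BD.Targets

/-!
# Board bct_modules, row DUX: the root groups are definable
-/

set_option autoImplicit false

namespace Pool.Agent.H57.BCT

open Set Matrix Pool.Agent.H77.BC Pool.Agent.H77.BD

theorem pf_DUX {M : Type} (U : RU M) (hGRD : GRD U) : T_DUX U := by
  intro l C hC F Γ _ _ _ _ x τ hx α
  let I : Type := {p : Root C × F // 0 ≤ ip C p.1.1 α.1}
  let s : I → Subgroup Γ := fun p => Subgroup.centralizer {x p.1.1 p.1.2}
  have hmem : ∀ (p : I) (g : Γ), g ∈ s p ↔ g * x p.1.1 p.1.2 = x p.1.1 p.1.2 * g := by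
    intro p g
    change g ∈ Subgroup.centralizer {x p.1.1 p.1.2} ↔ _
    rw [Subgroup.mem_centralizer_singleton_iff]
  have hDy : ∀ y : Γ, U.D {g : Γ | g * y = y * g} := by
    intro y
    exact D_eqf (DFn_gmul DFn_id (DFn_const y)) (DFn_gmul (DFn_const y) DFn_id)
  have hD : ∀ p : I, U.D (s p : Set Γ) := by
    intro p
    have : (s p : Set Γ) = {g : Γ | g * x p.1.1 p.1.2 = x p.1.1 p.1.2 * g} := by
      ext g
      exact hmem p g
    rw [this]
    exact hDy _
  obtain ⟨J, hJ⟩ := hGRD s hD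
  have hset : {g : Γ | ∃ t, g = x α t} = {g : Γ | ∀ k : {j // j ∈ J}, g * x k.1.1.1 k.1.1.2 =
      x k.1.1.1 k.1.1.2 * g} := by
    ext g
    constructor
    · rintro ⟨t, rfl⟩ k
      exact hx.cmm α k.1.1.1 (by rw [ip_comm hC]; exact k.1.2) t k.1.1.2
    · intro hg
      refine hx.cen α g fun γ hγ t => ?_
      have h1 : g ∈ ⨅ j ∈ J, s j := by
        simp only [Subgroup.mem_iInf]
        intro j hj
        exact (hmem j g).2 (hg ⟨j, hj⟩)
      exact (hmem ⟨(γ, t), hγ⟩ g).1 (hJ ⟨(γ, t), hγ⟩ h1)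
  rw [hset]
  exact D_forall_fin fun k => hDy _

end Pool.Agent.H57.BCT
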