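import Pool.Agent.H77.BD.Targets

/-!
# Board bct_modules, row LOW: proper definable subgroups
-/

set_option autoImplicit false

namespace Pool.Agent.H57.BCT

open Set Matrix Pool.Agent.H77.BC Pool.Agent.H77.BD

theorem pf_LOW {M : Type} (U : RU M) (hHXY : T_HXY U) (hHEI : T_HEI U) (hMLT : T_MLT U) :
    T_LOW U := by
  intro l C hC hl F Γ _ _ _ _ _ _ _ x τ hx hdf k hk H hD hne
  by_contra hcon
  push Not at hcon
  have hinf : Infinite F := IsAlgClosed.instInfinite
  apply hne
  refine hMLT hC hl hx hdf H hD fun γ => ?_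
  obtain ⟨X, Y, hX, hY, hHS⟩ := hHXY hC hx hdf k hk γ
  exact hHEI hHS hX hY (hdf γ) H hD hcon

end Pool.Agent.H57.BCT
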