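import Pool.Agent.H77.BD.Targets

/-!
# Board bct_modules, row PRN: differences of roots do not vanish in any characteristic
-/

set_option autoImplicit false

namespace Pool.Agent.H57.BCT

open Set Matrix Pool.Agent.H77.BC Pool.Agent.H77.BD

theorem exists_pr_one {l : ℕ} {F : Type} [Field F] (v : Fin l → ℤ) (i : Fin l)
    (hi : (v i : F) ≠ 0) : ∃ h : Fin l → F, pr v h = 1 := by
  classical
  refine ⟨Pi.single i (v i : F)⁻¹, ?_⟩
  unfold pr
  rw [Finset.sum_eq_single i]
  · rw [Pi.single_eq_same, mul_inv_cancel₀ hi]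
  · intro j _ hj
    rw [Pi.single_eq_of_ne hj, mul_zero]
  · intro h
    exact (h (Finset.mem_univ i)).elim

theorem exists_ne_zero {l : ℕ} {C : Matrix (Fin l) (Fin l) ℤ} (hC : Cartan C) {F : Type} [Field F]
    (v : Fin l → ℤ) (hv : v ≠ 0) (hn : ip C v v ≤ 7) : ∃ i, (v i : F) ≠ 0 := by
  by_contra hcon
  push Not at hcon
  obtain ⟨p, hp⟩ := CharP.exists F
  have hdvd : ∀ i, (p : ℤ) ∣ v i := fun i => (CharP.intCast_eq_zero_iff F p (v i)).1 (hcon i)
  choose w hw using hdvd
  have hvw : v = (p : ℤ) • w := by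
    funext i
    rw [Pi.smul_apply, smul_eq_mul]
    exact hw i
  have hw0 : w ≠ 0 := by
    intro h
    apply hv
    rw [hvw, h, smul_zero]
  have hpos := hC.pos w hw0
  have heven := ar_comm hC w w
  have hip : ip C v v = p * (p * ip C w w) := by
    rw [hvw, ip_smul_left, ip_smul_right]
  have hvpos := hC.pos v hv
  have hp0 : p ≠ 0 := by
    rintro rfl
    rw [hip] at hvpos
    simp at hvpos
  have hp1 : p ≠ 1 := by
    rintro rfl
    exact CharP.char_ne_one F 1 rfl
  have hp2 : (2 : ℤ) ≤ p := by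
    have : 2 ≤ p := by omega
    exact_mod_cast this
  have h2 : 2 ≤ ip C w w := by omega
  have h4 : (4 : ℤ) ≤ p * ip C w w := by nlinarith
  have h8 : (8 : ℤ) ≤ p * (p * ip C w w) := by nlinarith
  omega

theorem pf_PRN : T_PRN := by
  intro l C hC F _
  refine ⟨fun γ => ?_, fun γ δ hne hne' => ?_⟩
  · obtain ⟨i, hi⟩ := exists_ne_zero (F := F) hC γ.1 (root_ne_zero γ) (by rw [ip_self]; norm_num)
    exact exists_pr_one γ.1 i hi
  · have h0 : γ.1 - δ.1 ≠ 0 := fun h => hne (Subtype.ext (sub_eq_zero.mp h))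
    have h1 : -1 ≤ ip C γ.1 δ.1 := neg_one_le_ip hC γ δ (fun h => hne' (by rw [h, neg_neg]))
    obtain ⟨i, hi⟩ := exists_ne_zero (F := F) hC (γ.1 - δ.1) h0 (by
      rw [ip_sub_left, ip_sub_right, ip_sub_right, ip_comm hC δ.1 γ.1, ip_self, ip_self]
      omega)
    exact exists_pr_one _ i hi

end Pool.Agent.H57.BCT
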