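import Pool.Agent.H77.BD.Targets

/-!
# Board bct_modules, row SPB: linear maps which agree on the basis
-/

set_option autoImplicit false

namespace Pool.Agent.H57.BCT

open Set Matrix Pool.Agent.H77.BC Pool.Agent.H77.BD

theorem pf_SPB : T_SPB := by
  classical
  intro l C hC F _ f g hfa hfs hga hgs heb hhb v
  have hfin : Finite (Root C) := finRoot hC
  have hft : Fintype (Root C) := Fintype.ofFinite _
  let f' : Sp C F →ₗ[F] Sp C F := { toFun := f, map_add' := hfa, map_smul' := hfs }
  let g' : Sp C F →ₗ[F] Sp C F := { toFun := g, map_add' := hga, map_smul' := hgs }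
  have hv : v = hb v.2 + ∑ γ : Root C, v.1 γ • eb F γ := by
    refine Prod.ext ?_ ?_
    · funext δ
      rw [Prod.fst_add, Prod.fst_sum, Pi.add_apply, Finset.sum_apply]
      simp [hb, eb]
    · funext i
      rw [Prod.snd_add, Prod.snd_sum, Pi.add_apply, Finset.sum_apply]
      simp [hb, eb]
  have h1 : f' v = g' v := by
    rw [hv, map_add, map_add, map_sum, map_sum]
    congr 1
    · exact hhb _
    · refine Finset.sum_congr rfl fun γ _ => ?_
      rw [map_smul, map_smul]
      congr 1
      exact heb γ
  exact h1

end Pool.Agent.H57.BCT
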