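import Pool.Agent.H77.BD.Targets

/-!
# Board bct_modules, row SPR: the rank of a subspace
-/

set_option autoImplicit false

namespace Pool.Agent.H57.BCT

open Set Matrix Pool.Agent.H77.BC Pool.Agent.H77.BD

theorem pf_SPR {M : Type} (U : RU M) (hRKA : RKA U) (hRKB : RKB U) (hRNV : RNV U) : T_SPR U := by
  intro F _ _ _ k W
  let b := Module.finBasis F W
  let L : (Fin (Module.finrank F W) → F) → (Fin k → F) × (Fin k → F) := fun c =>
    (fun i => ∑ j, c j * ((b j : W) : (Fin k → F) × (Fin k → F)).1 i,
      fun i => ∑ j, c j * ((b j : W) : (Fin k → F) × (Fin k → F)).2 i)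
  have hLdef : DFn U L := by
    refine DFn_pair ?_ ?_
    · exact DFn_vec fun i => DFn_sum Finset.univ fun j _ => DFn_mul (DFn_apply j) (DFn_const _)
    · exact DFn_vec fun i => DFn_sum Finset.univ fun j _ => DFn_mul (DFn_apply j) (DFn_const _)
  have hLeq : ∀ c, L c = ((b.equivFun.symm c : W) : (Fin k → F) × (Fin k → F)) := by
    intro c
    rw [Module.Basis.equivFun_symm_apply, Submodule.coe_sum]
    refine Prod.ext ?_ ?_
    · funext i
      rw [Prod.fst_sum, Finset.sum_apply]
      rfl
    · funext i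
      rw [Prod.snd_sum, Finset.sum_apply]
      rfl
  have hinj : Function.Injective L := by
    intro c d h
    rw [hLeq, hLeq] at h
    exact b.equivFun.symm.injective (Subtype.ext h)
  have hrange : L '' univ = (W : Set ((Fin k → F) × (Fin k → F))) := by
    ext v
    constructor
    · rintro ⟨c, _, rfl⟩
      rw [hLeq]
      exact (b.equivFun.symm c).2
    · intro hv
      refine ⟨b.equivFun ⟨v, hv⟩, mem_univ _, ?_⟩
      rw [hLeq, LinearEquiv.symm_apply_apply]
  refine ⟨?_, ?_⟩
  · rw [← hrange]
    exact DFn_image hLdef Ful.full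
  · rw [← hrange, hRKB.inj Ful.full hLdef ⟨0, mem_univ _⟩ hinj.injOn]
    exact le_of_eq (hRNV _ 0).1

end Pool.Agent.H57.BCT
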