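import Pool.Agent.H77.BD.Targets

/-!
# Board bct_modules, row UIC: the torus normalises the unipotent groups
-/

set_option autoImplicit false

namespace Pool.Agent.H57.BCT

open Set Matrix Pool.Agent.H77.BC Pool.Agent.H77.BD

theorem pf_UIC : T_UIC := by
  intro l C F Γ _ _ x τ hx p c u hu
  unfold Ug at hu ⊢
  induction hu using Subgroup.closure_induction with
  | mem g hg =>
    obtain ⟨β, t, hp, rfl⟩ := hg
    rw [hx.tor, mul_inv_cancel_right]
    exact Subgroup.subset_closure ⟨β, _, hp, rfl⟩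
  | one =>
    rw [mul_one, mul_inv_cancel]
    exact one_mem _
  | mul a b _ _ ha hb =>
    have : τ c * (a * b) * (τ c)⁻¹ = (τ c * a * (τ c)⁻¹) * (τ c * b * (τ c)⁻¹) := by group
    rw [this]
    exact mul_mem ha hb
  | inv a _ ha =>
    have : τ c * a⁻¹ * (τ c)⁻¹ = (τ c * a * (τ c)⁻¹)⁻¹ := by group
    rw [this]
    exact inv_mem ha

end Pool.Agent.H57.BCT
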