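import Pool.Agent.H77.BD.Targets

/-!
# Board bct_modules, row UIT: the simple root group meets the other part trivially
-/

set_option autoImplicit false

namespace Pool.Agent.H57.BCT

open Set Matrix Pool.Agent.H77.BC Pool.Agent.H77.BD

theorem pf_UIT (hUIA : T_UIA) : T_UIT := by
  classical
  intro l C hC F Γ _ _ _ x τ hx i s hs
  by_contra hs0
  obtain ⟨t, ht⟩ := Infinite.exists_notMem_finset ({0, -s⁻¹} : Finset F)
  simp only [Finset.mem_insert, Finset.mem_singleton, not_or] at ht
  obtain ⟨ht0, ht1⟩ := ht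
  have hc0 : 1 + s * t ≠ 0 := by
    intro h
    apply ht1
    have : s * t = -1 := by linear_combination h
    rw [← mul_right_inj' hs0, this, mul_neg, mul_inv_cancel₀ hs0]
  have hx0 : ∀ β : Root C, x β 0 = 1 := by
    intro β
    have := hx.add β 0 0
    rw [add_zero] at this
    exact left_eq_mul.mp this
  have hmem := (hUIA hC hx i).2 _ hs t
  set u1 := x (ng (sr hC i)) t * x (sr hC i) s * x (ng (sr hC i)) (-t) with hu1
  have hu1p : u1 ∈ Ug x IsPos := by
    refine (Subgroup.closure_mono ?_) hmem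
    rintro g ⟨β, r, hp, rfl⟩
    exact ⟨β, r, hp.1, rfl⟩
  let c : Fˣ := Units.mk0 (1 + s * t) hc0
  have hcv : (c : F) = 1 - s * (-t) := by
    change 1 + s * t = 1 - s * (-t)
    ring
  have hcv' : (c : F) = 1 + s * t := rfl
  have hslt := hx.slt i (sr hC i) (ng (sr hC i)) rfl rfl s (-t) c hcv
  have hinv : x (ng (sr hC i)) (-t) * x (ng (sr hC i)) t = 1 := by
    rw [← hx.add, neg_add_cancel, hx0]
  have hinv' : x (ng (sr hC i)) t * x (ng (sr hC i)) (-t) = 1 := by
    rw [← hx.add, add_neg_cancel, hx0]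
  have h1 : x (ng (sr hC i)) (t + -t / c) * τ (Pi.mulSingle i c) *
      (x (sr hC i) (s / c) * u1⁻¹) = 1 := by
    rw [hx.add]
    have h2 : x (ng (sr hC i)) t * x (ng (sr hC i)) (-t / c) * τ (Pi.mulSingle i c) *
        (x (sr hC i) (s / c) * u1⁻¹) = x (ng (sr hC i)) t * (x (ng (sr hC i)) (-t / c) *
        τ (Pi.mulSingle i c) * x (sr hC i) (s / c)) * u1⁻¹ := by group
    rw [h2, ← hslt, hu1]
    group
  have hneg : x (ng (sr hC i)) (t + -t / c) ∈ Ug x IsNeg := by
    refine Subgroup.subset_closure ⟨ng (sr hC i), _, ?_, rfl⟩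
    intro j
    rw [ng_val, sr_val, Pi.neg_apply]
    unfold si
    by_cases hj : j = i
    · subst hj
      simp
    · rw [Pi.single_eq_of_ne hj]
      simp
  have hpos : x (sr hC i) (s / c) * u1⁻¹ ∈ Ug x IsPos := by
    refine mul_mem (Subgroup.subset_closure ⟨sr hC i, _, ?_, rfl⟩) (inv_mem hu1p)
    intro j
    rw [sr_val]
    unfold si
    by_cases hj : j = i
    · subst hj
      simp
    · rw [Pi.single_eq_of_ne hj]
  have htri := (hx.tri _ hneg _ _ hpos h1).1
  rw [← hx0 (ng (sr hC i))] at htri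
  have h3 := hx.inj _ _ _ htri
  have h4 : t * s * t = 0 := by
    have h5 : (t + -t / (c : F)) * c = 0 := by rw [h3, zero_mul]
    rw [add_mul, div_mul_cancel₀ _ c.ne_zero, hcv'] at h5
    linear_combination h5
  rcases mul_eq_zero.1 h4 with h6 | h6
  · rcases mul_eq_zero.1 h6 with h7 | h7
    · exact ht0 h7
    · exact hs0 h7
  · exact ht0 h6

end Pool.Agent.H57.BCT
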