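import Pool.Agent.H77.BD.Targets

/-!
# Board bct_modules, row UPR: the rank of the group
-/

set_option autoImplicit false

namespace Pool.Agent.H57.BCT

open Set Matrix Pool.Agent.H77.BC Pool.Agent.H77.BD

theorem pf_UPR {M : Type} (U : RU M) (hGEN : T_GEN) (hUPN : T_UPN U) (hTRK : T_TRK U)
    (hOMD : T_OMD U) (hOMS : T_OMS U) (hCTG : T_CTG U) : T_UPR U := by
  intro l C hC F Γ _ _ _ _ _ _ _ x τ hx hdf
  have hx0 : ∀ β : Root C, x β 0 = 1 := by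
    intro β
    have := hx.add β 0 0
    rw [add_zero] at this
    exact left_eq_mul.mp this
  have hxinv : ∀ (β : Root C) (t : F), (x β t)⁻¹ = x β (-t) := by
    intro β t
    rw [inv_eq_iff_mul_eq_one, ← hx.add, add_neg_cancel, hx0]
  obtain ⟨hOD, hOR⟩ := hOMD hC hx hdf
  obtain ⟨_, _, hU, _⟩ := hUPN hC hx hdf
  obtain ⟨_, hT⟩ := hTRK hC hx hdf
  have h1 : U.R (univ : Set Γ) ≤ U.R (Om x τ) := by
    refine hCTG (Om x τ)
      {g | ∃ (i : Fin l) (t : F), g = x (sr hC i) t ∨ g = x (ng (sr hC i)) t} hOD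
      ⟨1, 1, one_mem _, 1, 1, one_mem _, by simp⟩ (hGEN hC hx) ?_
    rintro g ⟨i, t, rfl | rfl⟩
    · exact ⟨⟨i, -t, Or.inl (hxinv _ _)⟩, (hOMS hC hx hdf i t).1⟩
    · exact ⟨⟨i, -t, Or.inr (hxinv _ _)⟩, (hOMS hC hx hdf i t).2⟩
  rw [hOR] at h1
  rw [add_mul]
  omega

end Pool.Agent.H57.BCT
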