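import Pool.Agent.H77.BD.Targets

/-!
# Board bct_modules, row XAD: one-parameter groups
-/

set_option autoImplicit false

namespace Pool.Agent.H57.BCT

open Set Matrix Pool.Agent.H77.BC Pool.Agent.H77.BD

theorem pf_XAD (hXEB : T_XEB) (hSPB : T_SPB) : T_XAD := by
  intro l C hC F _ β s t v
  refine ⟨?_, ?_⟩
  · refine hSPB hC (fun v => Xf β s (Xf β t v)) (fun v => Xf β (s + t) v) ?_ ?_ ?_ ?_ ?_ ?_ v
    · intro u v
      simp only [Xf_add]
    · intro a v
      simp only [Xf_smul]
    · intro u v
      simp only [Xf_add]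
    · intro a v
      simp only [Xf_smul]
    · intro γ
      by_cases hng : γ.1 = -β.1
      · have hγ : γ = ng β := Subtype.ext hng
        subst hγ
        have hβ : Xf β s (eb F β) = eb F β := (hXEB hC β s).1 β (by rw [ip_self]; norm_num)
        rw [(hXEB hC β t).2.2.1, (hXEB hC β (s + t)).2.2.1]
        have e1 : eb F (ng β) - t • hb (hh C F β.1) + t ^ 2 • eb F β =
            eb F (ng β) + (-t) • hb (hh C F β.1) + t ^ 2 • eb F β := by
          rw [neg_smul, ← sub_eq_add_neg]
        rw [e1, Xf_add, Xf_add, Xf_smul, Xf_smul, (hXEB hC β s).2.2.1, hβ,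
          (hXEB hC β s).2.2.2, pr_hh, ip_self]
        push_cast
        module
      · have hge := neg_one_le_ip hC β γ hng
        rcases eq_or_lt_of_le hge with hm | hm
        · have hip : ip C β.1 γ.1 = -1 := hm.symm
          have hfix : ∀ r : F, Xf β r (eb F (ad hC β γ hip)) = eb F (ad hC β γ hip) := by
            intro r
            refine (hXEB hC β r).1 _ ?_
            rw [ad_val, ip_add_right, ip_self, hip]
            norm_num
          rw [(hXEB hC β t).2.1 γ (ad hC β γ hip) rfl, Xf_add, Xf_smul,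
            (hXEB hC β s).2.1 γ (ad hC β γ hip) rfl, hfix,
            (hXEB hC β (s + t)).2.1 γ (ad hC β γ hip) rfl]
          module
        · have h0 : 0 ≤ ip C β.1 γ.1 := by omega
          rw [(hXEB hC β t).1 γ h0, (hXEB hC β s).1 γ h0, (hXEB hC β (s + t)).1 γ h0]
    · intro h
      have hβ : Xf β s (eb F β) = eb F β := (hXEB hC β s).1 β (by rw [ip_self]; norm_num)
      rw [(hXEB hC β t).2.2.2, (hXEB hC β (s + t)).2.2.2]
      have e1 : (hb h : Sp C F) - (t * pr β.1 h) • eb F β =
          hb h + (-(t * pr β.1 h)) • eb F β := by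
        rw [neg_smul, ← sub_eq_add_neg]
      rw [e1, Xf_add, Xf_smul, (hXEB hC β s).2.2.2, hβ]
      module
  · rw [Xf_eq]
    simp

end Pool.Agent.H57.BCT
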