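import Pool.Agent.H57.BCT.XAD

/-!
# Board bct_modules, row XCM: commuting root elements
-/

set_option autoImplicit false

namespace Pool.Agent.H57.BCT

open Set Matrix Pool.Agent.H77.BC Pool.Agent.H77.BD

variable {l : ℕ} {C : Matrix (Fin l) (Fin l) ℤ} {F : Type} [Field F]

theorem comm_B (hXEB : T_XEB) (hC : Cartan C) (β γ : Root C) (hk0 : 0 ≤ ip C β.1 γ.1)
    (hk1 : ip C β.1 γ.1 ≤ 1) (s t : F) :
    Xf β s (Xf γ t (eb F (ng γ))) = Xf γ t (Xf β s (eb F (ng γ))) := by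
  have hγ := (hXEB hC γ t).2.2.1
  have e1 : eb F (ng γ) - t • hb (hh C F γ.1) + t ^ 2 • eb F γ =
      eb F (ng γ) + (-t) • hb (hh C F γ.1) + t ^ 2 • eb F γ := by
    rw [neg_smul, ← sub_eq_add_neg]
  have hβγ : Xf β s (eb F γ) = eb F γ := (hXEB hC β s).1 γ hk0
  rcases (by omega : ip C β.1 γ.1 = 0 ∨ ip C β.1 γ.1 = 1) with hk | hk
  · have h1 : Xf β s (eb F (ng γ)) = eb F (ng γ) := by
      refine (hXEB hC β s).1 _ ?_
      rw [ng_val, ip_neg_right, hk]
      norm_num
    rw [h1, hγ, e1, Xf_add, Xf_add, Xf_smul, Xf_smul, h1, hβγ, (hXEB hC β s).2.2.2, pr_hh, hk]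
    simp
  · have hip : ip C β.1 (ng γ).1 = -1 := by
      rw [ng_val, ip_neg_right, hk]
    have h1 := (hXEB hC β s).2.1 (ng γ) (ad hC β (ng γ) hip) rfl
    have hsum : β.1 = γ.1 + (ad hC β (ng γ) hip).1 := by
      rw [ad_val, ng_val]
      abel
    have h2 := (hXEB hC γ t).2.1 (ad hC β (ng γ) hip) β hsum
    rw [hγ, e1, Xf_add, Xf_add, Xf_smul, Xf_smul, h1, hβγ, (hXEB hC β s).2.2.2, pr_hh, hk, Xf_add,
      Xf_smul, h2, hγ]
    have hc : (eps C β.1 (ng γ).1 : F) * (eps C γ.1 (ad hC β (ng γ) hip).1 : F) = 1 := by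
      rw [← Int.cast_mul]
      have : eps C β.1 (ng γ).1 * eps C γ.1 (ad hC β (ng γ) hip).1 = 1 := by
        rw [ad_val, ng_val, eps_neg_right, eps_add_right, eps_neg_right, eps_self hC,
          eps_swap hC β.1 γ.1, hk, sg_one]
        have := eps_mul_self (C := C) γ.1 β.1
        linear_combination this
      rw [this, Int.cast_one]
    have hc2 : ((eps C β.1 (ng γ).1 : F) * s) • ((eps C γ.1 (ad hC β (ng γ) hip).1 : F) * t) •
        eb F β = (s * t) • eb F β := by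
      rw [smul_smul]
      congr 1
      linear_combination (s * t) * hc
    rw [smul_add, hc2]
    push_cast
    module

theorem pf_XCM (hXEB : T_XEB) (hSPB : T_SPB) : T_XCM := by
  intro l C hC F _ β γ hk s t v
  have hXAD : T_XAD := pf_XAD hXEB hSPB
  by_cases hβγ : β = γ
  · subst hβγ
    rw [(hXAD hC β s t v).1, (hXAD hC β t s v).1, add_comm]
  have hk1 : ip C β.1 γ.1 ≤ 1 := ip_le_one hC β γ hβγ
  have hk' : 0 ≤ ip C γ.1 β.1 := by rw [ip_comm hC]; exact hk
  have hk1' : ip C γ.1 β.1 ≤ 1 := by rw [ip_comm hC]; exact hk1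
  refine hSPB hC (fun v => Xf β s (Xf γ t v)) (fun v => Xf γ t (Xf β s v)) ?_ ?_ ?_ ?_ ?_ ?_ v
  · intro u v
    simp only [Xf_add]
  · intro a v
    simp only [Xf_smul]
  · intro u v
    simp only [Xf_add]
  · intro a v
    simp only [Xf_smul]
  · intro δ
    change Xf β s (Xf γ t (eb F δ)) = Xf γ t (Xf β s (eb F δ))
    by_cases h1 : δ.1 = -γ.1
    · have : δ = ng γ := Subtype.ext h1
      subst this
      exact comm_B hXEB hC β γ hk hk1 s t
    by_cases h2 : δ.1 = -β.1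
    · have : δ = ng β := Subtype.ext h2
      subst this
      exact (comm_B hXEB hC γ β hk' hk1' t s).symm
    have ha := neg_one_le_ip hC β δ h2
    have hb' := neg_one_le_ip hC γ δ h1
    have fixβ : ∀ ξ : Root C, 0 ≤ ip C β.1 ξ.1 → Xf β s (eb F ξ) = eb F ξ :=
      (hXEB hC β s).1
    have fixγ : ∀ ξ : Root C, 0 ≤ ip C γ.1 ξ.1 → Xf γ t (eb F ξ) = eb F ξ :=
      (hXEB hC γ t).1
    rcases eq_or_lt_of_le ha with ha1 | ha1
    · -- `ip β δ = -1`
      have hipa : ip C β.1 δ.1 = -1 := ha1.symm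
      have e1 := (hXEB hC β s).2.1 δ (ad hC β δ hipa) rfl
      have hξ : ip C γ.1 (ad hC β δ hipa).1 = ip C γ.1 β.1 + ip C γ.1 δ.1 := by
        rw [ad_val, ip_add_right]
      rcases eq_or_lt_of_le hb' with hb1 | hb1
      · have hipb : ip C γ.1 δ.1 = -1 := hb1.symm
        have e2 := (hXEB hC γ t).2.1 δ (ad hC γ δ hipb) rfl
        have hη : ip C β.1 (ad hC γ δ hipb).1 = ip C β.1 γ.1 + ip C β.1 δ.1 := by
          rw [ad_val, ip_add_right]
        rcases (by omega : ip C β.1 γ.1 = 0 ∨ ip C β.1 γ.1 = 1) with hk2 | hk2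
        · have hk3 : ip C γ.1 β.1 = 0 := by rw [ip_comm hC]; exact hk2
          have hξ1 : ip C γ.1 (ad hC β δ hipa).1 = -1 := by rw [hξ]; omega
          have hη1 : ip C β.1 (ad hC γ δ hipb).1 = -1 := by rw [hη]; omega
          have hζ : (ad hC β (ad hC γ δ hipb) hη1).1 = γ.1 + (ad hC β δ hipa).1 := by
            rw [ad_val, ad_val, ad_val]
            abel
          have e3 := (hXEB hC β s).2.1 (ad hC γ δ hipb) (ad hC β (ad hC γ δ hipb) hη1) rfl
          have e4 := (hXEB hC γ t).2.1 (ad hC β δ hipa) (ad hC β (ad hC γ δ hipb) hη1) hζ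
          rw [e2, e1, Xf_add, Xf_add, Xf_smul, Xf_smul, e1, e2, e3, e4]
          have hc : (eps C γ.1 δ.1 : F) * (eps C β.1 (ad hC γ δ hipb).1 : F) =
              (eps C β.1 δ.1 : F) * (eps C γ.1 (ad hC β δ hipa).1 : F) := by
            rw [← Int.cast_mul, ← Int.cast_mul]
            congr 1
            rw [ad_val, ad_val, eps_add_right, eps_add_right, eps_swap hC β.1 γ.1, hk2, sg_zero]
            ring
          have hc2 : ((eps C γ.1 δ.1 : F) * t) • ((eps C β.1 (ad hC γ δ hipb).1 : F) * s) •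
              eb F (ad hC β (ad hC γ δ hipb) hη1) =
              ((eps C β.1 δ.1 : F) * s) • ((eps C γ.1 (ad hC β δ hipa).1 : F) * t) •
              eb F (ad hC β (ad hC γ δ hipb) hη1) := by
            rw [smul_smul, smul_smul]
            congr 1
            linear_combination (s * t) * hc
          rw [smul_add, smul_add, hc2]
          abel
        · rw [e2, e1, Xf_add, Xf_add, Xf_smul, Xf_smul, e1, e2,
            fixβ _ (by rw [hη]; omega), fixγ _ (by rw [hξ, ip_comm hC γ.1 β.1]; omega)]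
          abel
      · have hb0 : 0 ≤ ip C γ.1 δ.1 := by omega
        rw [fixγ δ hb0, e1, Xf_add, Xf_smul, fixγ δ hb0, fixγ _ (by rw [hξ]; omega)]
    · have ha0 : 0 ≤ ip C β.1 δ.1 := by omega
      rcases eq_or_lt_of_le hb' with hb1 | hb1
      · have hipb : ip C γ.1 δ.1 = -1 := hb1.symm
        have e2 := (hXEB hC γ t).2.1 δ (ad hC γ δ hipb) rfl
        have hη : ip C β.1 (ad hC γ δ hipb).1 = ip C β.1 γ.1 + ip C β.1 δ.1 := by
          rw [ad_val, ip_add_right]
        rw [fixβ δ ha0, e2, Xf_add, Xf_smul, fixβ δ ha0, fixβ _ (by rw [hη]; omega)]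
      · rw [fixγ δ (by omega), fixβ δ ha0, fixγ δ (by omega)]
  · intro h
    change Xf β s (Xf γ t (hb h)) = Xf γ t (Xf β s (hb h))
    have e1 : (hb h : Sp C F) - (t * pr γ.1 h) • eb F γ =
        hb h + (-(t * pr γ.1 h)) • eb F γ := by
      rw [neg_smul, ← sub_eq_add_neg]
    have e2 : (hb h : Sp C F) - (s * pr β.1 h) • eb F β =
        hb h + (-(s * pr β.1 h)) • eb F β := by
      rw [neg_smul, ← sub_eq_add_neg]
    rw [(hXEB hC γ t).2.2.2, (hXEB hC β s).2.2.2, e1, e2, Xf_add, Xf_add, Xf_smul, Xf_smul,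
      (hXEB hC β s).1 γ hk, (hXEB hC γ t).1 β hk', (hXEB hC γ t).2.2.2, (hXEB hC β s).2.2.2]
    module

end Pool.Agent.H57.BCT
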