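import Pool.Agent.H77.BD.Targets

/-!
# Board bct_modules, row XEB: the root elements on the basis
-/

set_option autoImplicit false

namespace Pool.Agent.H57.BCT

open Set Matrix Pool.Agent.H77.BC Pool.Agent.H77.BD

theorem co_eb_self {l : ℕ} {C : Matrix (Fin l) (Fin l) ℤ} {F : Type} [Field F] (γ : Root C)
    {w : Fin l → ℤ} (h : w = γ.1) : co (eb F γ).1 w = 1 := by
  rw [co_of _ γ h]
  simp [eb]

theorem co_eb_ne {l : ℕ} {C : Matrix (Fin l) (Fin l) ℤ} {F : Type} [Field F] (γ : Root C)
    {w : Fin l → ℤ} (h : w ≠ γ.1) : co (eb F γ).1 w = 0 := by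
  by_cases h2 : ip C w w = 2
  · rw [co_of _ ⟨w, h2⟩ rfl]
    simp only [eb]
    rw [if_neg]
    intro h3
    exact h (congrArg Subtype.val h3)
  · exact co_not _ h2

theorem pf_XEB : T_XEB := by
  intro l C hC F _ β t
  have hββ : β.1 ≠ -β.1 := by
    intro h
    have h1 := ip_neg_right (C := C) β.1 β.1
    rw [← h, ip_self] at h1
    norm_num at h1
  refine ⟨fun γ hγ => ?_, fun γ δ hδ => ?_, ?_, fun h => ?_⟩
  · have hne : (-β.1) ≠ γ.1 := by
      intro h
      rw [← h, ip_neg_right, ip_self] at hγ
      norm_num at hγ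
    have h1 : ∀ δ : Root C, co (eb F γ).1 (δ.1 - β.1) = 0 := by
      intro δ
      refine co_eb_ne γ ?_
      intro h
      have := ip_of_sum hC β γ δ (by rw [← h]; abel)
      omega
    refine Prod.ext ?_ ?_
    · funext δ
      simp only [Xf, h1, co_eb_ne γ hne]
      simp [eb]
    · funext i
      simp only [Xf, co_eb_ne γ hne]
      simp [eb]
  · have hne : (-β.1) ≠ γ.1 := by
      intro h
      rw [← h, add_neg_cancel] at hδ
      exact root_ne_zero δ hδ
    refine Prod.ext ?_ ?_
    · funext ξ
      simp only [Xf, co_eb_ne γ hne, Prod.fst_add, Prod.smul_fst, Pi.add_apply, Pi.smul_apply,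
        smul_eq_mul]
      by_cases hξ : ξ = δ
      · subst hξ
        have h2 : ξ.1 - β.1 = γ.1 := by rw [hδ]; abel
        rw [co_eb_self γ h2, h2]
        simp [eb]
        ring
      · have h2 : ξ.1 - β.1 ≠ γ.1 := by
          intro h3
          apply hξ
          apply Subtype.ext
          rw [hδ, ← h3]
          abel
        rw [co_eb_ne γ h2]
        simp [eb, hξ]
    · funext i
      simp only [Xf, co_eb_ne γ hne]
      simp [eb]
  · have h1 : ∀ δ : Root C, co (eb F (ng β)).1 (δ.1 - β.1) = 0 := by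
      intro δ
      refine co_eb_ne (ng β) ?_
      intro h
      rw [ng_val] at h
      have : δ.1 = 0 := by
        have h3 := congrArg (· + β.1) h
        simpa using h3
      exact root_ne_zero δ this
    have h2 : co (eb F (ng β)).1 (-β.1) = 1 := co_eb_self (ng β) rfl
    refine Prod.ext ?_ ?_
    · funext δ
      simp only [Xf, h1, h2, Prod.fst_add, Prod.fst_sub, Prod.smul_fst, Pi.add_apply,
        Pi.sub_apply, Pi.smul_apply, smul_eq_mul]
      by_cases hδ : δ = β
      · simp [eb, hb, hδ, pr]
      · simp [eb, hb, hδ]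
    · funext i
      simp only [Xf, h2, Prod.snd_add, Prod.snd_sub, Prod.smul_snd, Pi.add_apply,
        Pi.sub_apply, Pi.smul_apply, smul_eq_mul]
      simp [eb, hb]
  · have h1 : ∀ w : Fin l → ℤ, co (hb h : Sp C F).1 w = 0 := by
      intro w
      unfold co
      split_ifs <;> rfl
    refine Prod.ext ?_ ?_
    · funext δ
      simp only [Xf, h1, Prod.fst_sub, Prod.smul_fst, Pi.sub_apply, Pi.smul_apply, smul_eq_mul]
      by_cases hδ : δ = β
      · simp [eb, hb, hδ]
      · simp [eb, hb, hδ]
    · funext i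
      simp only [Xf, h1, Prod.snd_sub, Prod.smul_snd, Pi.sub_apply, Pi.smul_apply, smul_eq_mul]
      simp [eb, hb]

end Pool.Agent.H57.BCT
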